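import Mathlib

/-!
RECTANGLES, module M4, part 1: the function `E4 τ = η(i τ)^4` on the right half plane.
-/

set_option autoImplicit false

namespace RectM4
open Complex ModularForm UpperHalfPlane Filter Topology Function
open scoped Real

/-- `η(i τ)^4` -/
noncomputable def E4 (τ : ℂ) : ℂ := (ModularForm.eta (Complex.I * τ)) ^ 4

theorem im_I_mul (τ : ℂ) : (Complex.I * τ).im = τ.re := by simp

theorem mem_uhp {τ : ℂ} (h : 0 < τ.re) : Complex.I * τ ∈ upperHalfPlaneSet := by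
  show 0 < (Complex.I * τ).im
  rw [im_I_mul]; exact h

theorem E4_differentiableAt {τ : ℂ} (h : 0 < τ.re) : DifferentiableAt ℂ E4 τ := by
  unfold E4
  refine DifferentiableAt.pow ?_ 4
  exact DifferentiableAt.comp τ (differentiableAt_eta_of_mem_upperHalfPlaneSet (mem_uhp h))
    (by fun_prop)

theorem E4_ne_zero {τ : ℂ} (h : 0 < τ.re) : E4 τ ≠ 0 := pow_ne_zero 4 (eta_ne_zero (mem_uhp h))

theorem sqrt_pow_four (z : ℂ) : sqrt z ^ 4 = z ^ 2 := by
  rcases eq_or_ne z 0 with rfl | hz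
  · simp
  · rw [sqrt_eq_exp hz, ← exp_nat_mul]
    rw [show ((4 : ℕ) : ℂ) * (log z / 2) = (2 : ℕ) * log z by push_cast; ring, exp_nat_mul, exp_log hz]

theorem E4_inv {τ : ℂ} (h : 0 < τ.re) : E4 τ⁻¹ = τ ^ 2 * E4 τ := by
  have h0 : τ ≠ 0 := fun h' => by rw [h'] at h; simp at h
  have h1 := eta_comp_eq_csqrt_I_inv (mem_uhp h)
  simp only [Function.comp, Pi.smul_apply, Pi.mul_apply, smul_eq_mul] at h1
  have h2 : -1 / (Complex.I * τ) = Complex.I * τ⁻¹ := by
    field_simp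
    rw [Complex.I_sq]
  rw [h2] at h1
  unfold E4
  rw [h1, mul_pow, mul_pow, inv_pow, sqrt_pow_four, sqrt_pow_four]
  have h3 : Complex.I ^ 2 = -1 := Complex.I_sq
  rw [mul_pow, h3]
  ring

theorem eta_add_one (z : ℂ) : ModularForm.eta (z + 1) = cexp (2 * π * Complex.I / 24) * ModularForm.eta z := by
  unfold ModularForm.eta
  have h1 : ∀ n, eta_q n (z + 1) = eta_q n z := by
    intro n
    rw [eta_q_eq_cexp, eta_q_eq_cexp]
    rw [show 2 * (π : ℂ) * Complex.I * (n + 1) * (z + 1) =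
      2 * π * Complex.I * (n + 1) * z + ((n + 1 : ℕ) : ℂ) * (2 * π * Complex.I) by push_cast; ring,
      Complex.exp_add, Complex.exp_nat_mul_two_pi_mul_I, mul_one]
  simp only [h1]
  rw [← mul_assoc]
  congr 1
  unfold Periodic.qParam
  rw [← Complex.exp_add]
  congr 1
  push_cast
  ring

theorem E4_sub_I (τ : ℂ) : E4 (τ - Complex.I) = cexp (Complex.I * π / 3) * E4 τ := by
  unfold E4
  rw [show Complex.I * (τ - Complex.I) = Complex.I * τ + 1 by
    rw [mul_sub, Complex.I_mul_I]; ring, eta_add_one, mul_pow, ← Complex.exp_nat_mul]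
  congr 2
  push_cast
  ring

theorem E4_add_two_I (τ : ℂ) : E4 (τ + 2 * Complex.I) = cexp (-(Complex.I * π / 3)) ^ 2 * E4 τ := by
  have h1 := E4_sub_I (τ + 2 * Complex.I)
  have h2 := E4_sub_I (τ + Complex.I)
  rw [show τ + 2 * Complex.I - Complex.I = τ + Complex.I by ring] at h1
  rw [show τ + Complex.I - Complex.I = τ by ring] at h2
  rw [h2, h1]
  have h3 : cexp (-(Complex.I * π / 3)) * cexp (Complex.I * π / 3) = 1 := by
    rw [← Complex.exp_add]; simp
  linear_combination (-(1 + cexp (-(Complex.I * π / 3)) * cexp (Complex.I * π / 3)) *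
    E4 (τ + 2 * Complex.I)) * h3

/-- two sided bounds near infinity -/
theorem E4_bounds : ∃ A : ℝ, 1 ≤ A ∧ ∀ τ : ℂ, A ≤ τ.re →
    Real.exp (-(π * τ.re / 3)) / 2 ≤ ‖E4 τ‖ ∧ ‖E4 τ‖ ≤ 2 * Real.exp (-(π * τ.re / 3)) := by
  have h1 := tendsto_atImInfty_tprod_one_sub_eta_q_pow
  have h2 : ∀ᶠ z : ℍ in atImInfty, ‖(∏' n : ℕ, (1 - eta_q n z) ^ 24) - 1‖ < 1 / 2 := by
    have := (Metric.tendsto_nhds.mp h1) (1 / 2) (by norm_num)
    simpa [dist_eq_norm] using this
  obtain ⟨A, hA⟩ := (atImInfty_mem _).mp h2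
  refine ⟨max A 1, le_max_right _ _, fun τ hτ => ?_⟩
  have hpos : 0 < τ.re := lt_of_lt_of_le (by norm_num) ((le_max_right A 1).trans hτ)
  set z : ℍ := ⟨Complex.I * τ, mem_uhp hpos⟩ with hz
  have hzim : z.im = τ.re := im_I_mul τ
  have h3 : ‖(∏' n : ℕ, (1 - eta_q n z) ^ 24) - 1‖ < 1 / 2 :=
    hA z (by rw [hzim]; exact (le_max_left A 1).trans hτ)
  have h4 := discriminant_eq_q_prod z
  have hzc : (z : ℂ) = Complex.I * τ := rfl
  have h5 : discriminant z = (E4 τ) ^ 6 := by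
    have e : discriminant z = (ModularForm.eta (z : ℂ)) ^ 24 := by unfold discriminant; rfl
    rw [e, hzc, show (24 : ℕ) = 4 * 6 by norm_num, pow_mul]
    unfold E4
    rfl
  have h6 : ‖E4 τ‖ ^ 6 = Real.exp (-(2 * π * τ.re)) * ‖∏' n : ℕ, (1 - eta_q n z) ^ 24‖ := by
    rw [← norm_pow, ← h5, h4, norm_mul, Periodic.norm_qParam]
    congr 2
    have : (z : ℂ).im = τ.re := hzim
    rw [this]
    ring
  set R := ‖∏' n : ℕ, (1 - eta_q n z) ^ 24‖ with hR
  have h7 : 1 / 2 ≤ R ∧ R ≤ 3 / 2 := by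
    have e1 := norm_sub_norm_le (∏' n : ℕ, (1 - eta_q n z) ^ 24) (1 : ℂ)
    have e2 := norm_sub_norm_le (1 : ℂ) (∏' n : ℕ, (1 - eta_q n z) ^ 24)
    rw [norm_sub_rev] at e2
    rw [norm_one] at e1 e2
    rw [← hR] at e1 e2
    constructor <;> linarith
  have h8 : Real.exp (-(2 * π * τ.re)) = Real.exp (-(π * τ.re / 3)) ^ 6 := by
    rw [← Real.exp_nat_mul]
    congr 1
    push_cast
    ring
  set x := Real.exp (-(π * τ.re / 3)) with hx
  have hx0 : 0 < x := Real.exp_pos _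
  rw [h8] at h6
  constructor
  · apply le_of_pow_le_pow_left₀ (n := 6) (by norm_num) (norm_nonneg _)
    rw [h6, div_pow]
    have : 0 < x ^ 6 := by positivity
    nlinarith [h7.1]
  · apply le_of_pow_le_pow_left₀ (n := 6) (by norm_num) (by positivity)
    rw [h6, mul_pow]
    have : 0 < x ^ 6 := by positivity
    nlinarith [h7.2]

end RectM4
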