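import Pool.Agent.Helper34.Rect.Eta
import Pool.Agent.Rect.Mod.Vanish

/-!
RECTANGLES, module M4: a holomorphic solution of the two functional equations with the right growth is
Cardy's function.
-/

set_option autoImplicit false

namespace RectM4
open Complex Filter Topology MeasureTheory Set
open scoped Real

/-- the vanishing lemma (module M2) -/
def VanishExp : Prop := ∀ u : ℂ → ℂ, DifferentiableOn ℂ u {τ : ℂ | 0 < τ.re} →
  (∀ τ : ℂ, 0 < τ.re → ‖u (τ + 2 * I)‖ = ‖u τ‖) → (∀ τ : ℂ, 0 < τ.re → ‖u τ⁻¹‖ = ‖u τ‖) →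
  (∃ X C μ a : ℝ, a < 2 * μ ∧ (∀ τ : ℂ, X ≤ τ.re → ‖u τ‖ ≤ C * Real.exp (-(μ * τ.re))) ∧
    ∀ τ : ℂ, X ≤ τ.re → |τ.im| ≤ 1 / 2 → ‖u (τ⁻¹ + I)‖ ≤ C * Real.exp (a * τ.re)) →
  ∀ τ : ℂ, 0 < τ.re → u τ = 0

/-- the hypotheses on `F` -/
structure Hyp (F : ℂ → ℂ) (κ : ℕ) : Prop where
  diff : DifferentiableOn ℂ F {τ : ℂ | 0 < τ.re}
  per : ∀ τ : ℂ, 0 < τ.re → F (τ + 2 * I) = cexp (-(2 * π / 3) * I) * F τ
  dual : ∀ τ : ℂ, 0 < τ.re → F τ⁻¹ = 1 - F τ
  inf : ∃ C : ℝ, ∀ τ : ℂ, 1 ≤ τ.re → ‖F τ‖ ≤ C * Real.exp (-(π * (1 / 3 + κ) * τ.re))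
  zero : ∀ e : ℝ, 0 < e → ∃ C : ℝ, ∀ τ : ℂ, 0 < τ.re → τ.re ≤ 1 →
    ‖F τ‖ ≤ C * Real.exp ((π * (1 / 3 + κ) + e) / τ.re)

variable {F : ℂ → ℂ} {κ : ℕ}

theorem isOpen_hp : IsOpen {τ : ℂ | 0 < τ.re} := isOpen_lt continuous_const Complex.continuous_re

theorem re_inv_pos {τ : ℂ} (h : 0 < τ.re) : 0 < (τ⁻¹).re := by
  rw [Complex.inv_re]
  apply div_pos h
  rw [Complex.normSq_pos]
  intro h'
  rw [h'] at h
  simp at h

theorem re_add_two_I (τ : ℂ) : (τ + 2 * I).re = τ.re := by simp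

theorem Hyp.diffAt (H : Hyp F κ) {τ : ℂ} (h : 0 < τ.re) : DifferentiableAt ℂ F τ :=
  H.diff.differentiableAt (isOpen_hp.mem_nhds h)

theorem Hyp.deriv_per (H : Hyp F κ) {τ : ℂ} (h : 0 < τ.re) :
    deriv F (τ + 2 * I) = cexp (-(2 * π / 3) * I) * deriv F τ := by
  have h1 : (fun z => F (z + 2 * I)) =ᶠ[𝓝 τ] fun z => cexp (-(2 * π / 3) * I) * F z := by
    filter_upwards [isOpen_hp.mem_nhds h] with z hz
    exact H.per z hz
  have h2 := h1.deriv_eq
  rw [deriv_comp_add_const, deriv_const_mul _ (H.diffAt h)] at h2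
  exact h2

theorem Hyp.deriv_dual (H : Hyp F κ) {τ : ℂ} (h : 0 < τ.re) :
    deriv F τ⁻¹ = τ ^ 2 * deriv F τ := by
  have h0 : τ ≠ 0 := fun h' => by rw [h'] at h; simp at h
  have h1 : (fun z => F z⁻¹) =ᶠ[𝓝 τ] fun z => 1 - F z := by
    filter_upwards [isOpen_hp.mem_nhds h] with z hz
    exact H.dual z hz
  have h2 : HasDerivAt (fun z => F z⁻¹) (deriv F τ⁻¹ * (-(τ ^ 2)⁻¹)) τ :=
    HasDerivAt.comp τ (H.diffAt (re_inv_pos h)).hasDerivAt (hasDerivAt_inv h0)
  have h3 : HasDerivAt (fun z => 1 - F z) (-deriv F τ) τ := (H.diffAt h).hasDerivAt.const_sub 1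
  have h4 := h2.unique (h3.congr_of_eventuallyEq h1)
  have h5 : τ ^ 2 * (τ ^ 2)⁻¹ = 1 := mul_inv_cancel₀ (pow_ne_zero 2 h0)
  linear_combination (-τ ^ 2) * h4 - deriv F τ⁻¹ * h5

/-- the quotient `F' / E4` -/
noncomputable def vq (F : ℂ → ℂ) (τ : ℂ) : ℂ := deriv F τ / E4 τ

theorem Hyp.vq_per (H : Hyp F κ) {τ : ℂ} (h : 0 < τ.re) : vq F (τ + 2 * I) = vq F τ := by
  unfold vq
  rw [H.deriv_per h, E4_add_two_I, ← Complex.exp_nat_mul,
    show ((2 : ℕ) : ℂ) * -(I * π / 3) = -(2 * π / 3) * I by push_cast; ring,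
    mul_div_mul_left _ _ (Complex.exp_ne_zero _)]

theorem Hyp.vq_dual (H : Hyp F κ) {τ : ℂ} (h : 0 < τ.re) : vq F τ⁻¹ = vq F τ := by
  have h0 : τ ≠ 0 := fun h' => by rw [h'] at h; simp at h
  unfold vq
  rw [H.deriv_dual h, E4_inv h, mul_div_mul_left _ _ (pow_ne_zero 2 h0)]

theorem Hyp.vq_diff (H : Hyp F κ) : DifferentiableOn ℂ (vq F) {τ : ℂ | 0 < τ.re} := by
  unfold vq
  refine DifferentiableOn.div (H.diff.deriv isOpen_hp) (fun τ h => ?_) (fun τ h => E4_ne_zero h)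
  exact (E4_differentiableAt h).differentiableWithinAt

/-- the derivative near infinity -/
theorem Hyp.deriv_inf (H : Hyp F κ) : ∃ C : ℝ, 0 ≤ C ∧ ∀ τ : ℂ, 2 ≤ τ.re →
    ‖deriv F τ‖ ≤ C * Real.exp (-(π * (1 / 3 + κ) * τ.re)) := by
  obtain ⟨C, hC⟩ := H.inf
  have hC0 : 0 ≤ C := by
    have h1 := (norm_nonneg (F 1)).trans (hC 1 (by simp))
    have h2 := Real.exp_pos (-(π * (1 / 3 + κ) * (1 : ℂ).re))
    by_contra h3
    push Not at h3
    nlinarith
  refine ⟨C * Real.exp (π * (1 / 3 + κ)), by positivity, fun τ hτ => ?_⟩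
  have hs : ∀ z ∈ Metric.sphere τ 1, ‖F z‖ ≤
      C * Real.exp (π * (1 / 3 + κ)) * Real.exp (-(π * (1 / 3 + κ) * τ.re)) := by
    intro z hz
    have hz1 : |z.re - τ.re| ≤ 1 := by
      have := Complex.abs_re_le_norm (z - τ)
      rw [Complex.sub_re] at this
      rw [mem_sphere_iff_norm] at hz
      linarith
    have hz2 := abs_le.mp hz1
    refine (hC z (by linarith)).trans ?_
    rw [mul_assoc C, ← Real.exp_add]
    apply mul_le_mul_of_nonneg_left _ hC0
    apply Real.exp_le_exp.mpr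
    have : 0 < π * (1 / 3 + (κ : ℝ)) := by positivity
    nlinarith
  have hd : DiffContOnCl ℂ F (Metric.ball τ 1) := by
    apply DifferentiableOn.diffContOnCl_ball (U := {τ : ℂ | 0 < τ.re}) H.diff
    intro z hz
    have hz1 := Complex.abs_re_le_norm (z - τ)
    rw [Complex.sub_re] at hz1
    rw [mem_closedBall_iff_norm] at hz
    have hz2 := abs_le.mp (hz1.trans hz)
    show 0 < z.re
    linarith
  have := Complex.norm_deriv_le_of_forall_mem_sphere_norm_le one_pos hd hs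
  rwa [div_one] at this

/-- the quotient near infinity -/
theorem Hyp.vq_inf (H : Hyp F κ) : ∃ X C : ℝ, 0 ≤ C ∧ ∀ τ : ℂ, X ≤ τ.re →
    ‖vq F τ‖ ≤ C * Real.exp (-(π * κ * τ.re)) := by
  obtain ⟨C, hC0, hC⟩ := H.deriv_inf
  obtain ⟨A, hA1, hA⟩ := E4_bounds
  refine ⟨max A 2, 2 * C, by positivity, fun τ hτ => ?_⟩
  have h1 := hC τ ((le_max_right _ _).trans hτ)
  have h2 := (hA τ ((le_max_left _ _).trans hτ)).1
  have h3 : 0 < Real.exp (-(π * τ.re / 3)) := Real.exp_pos _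
  unfold vq
  rw [norm_div, div_le_iff₀ (by linarith)]
  refine h1.trans ?_
  have h4 : C * Real.exp (-(π * (1 / 3 + κ) * τ.re)) =
      2 * C * Real.exp (-(π * κ * τ.re)) * (Real.exp (-(π * τ.re / 3)) / 2) := by
    rw [show -(π * (1 / 3 + (κ : ℝ)) * τ.re) = -(π * κ * τ.re) + -(π * τ.re / 3) by ring, Real.exp_add]
    ring
  rw [h4]
  apply mul_le_mul_of_nonneg_left h2 (by positivity)

theorem norm_E4_add_I (τ : ℂ) : ‖E4 (τ + I)‖ = ‖E4 τ‖ := by
  have h := E4_sub_I (τ + I)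
  rw [add_sub_cancel_right] at h
  rw [h, norm_mul, show I * π / 3 = ((π / 3 : ℝ) : ℂ) * I by push_cast; ring,
    Complex.norm_exp_ofReal_mul_I, one_mul]

/-- the quotient near the second cusp -/
theorem Hyp.vq_zero (H : Hyp F κ) : ∃ X C : ℝ, 0 ≤ C ∧ ∀ τ : ℂ, X ≤ τ.re → |τ.im| ≤ 1 / 2 →
    ‖vq F (τ⁻¹ + I)‖ ≤ C * Real.exp ((π * (1 / 3 + κ + 1 / 12) * (10 / 9) + π / 3) * τ.re) := by
  obtain ⟨C, hC⟩ := H.zero (π / 12) (by positivity)
  obtain ⟨A, hA1, hA⟩ := E4_bounds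
  set b : ℝ := π * (1 / 3 + κ + 1 / 12) * (10 / 9) with hb
  have hb0 : 0 < b := by positivity
  have hC0 : 0 ≤ C := by
    have h1 := (norm_nonneg (F 1)).trans (hC 1 (by simp) (by simp))
    have h2 := Real.exp_pos ((π * (1 / 3 + κ) + π / 12) / (1 : ℂ).re)
    by_contra h3
    push Not at h3
    nlinarith
  refine ⟨max A 2, 40 * C * Real.exp b, by positivity, fun τ hτ him => ?_⟩
  have hx2 : 2 ≤ τ.re := (le_max_right _ _).trans hτ
  have hx0 : 0 < τ.re := by linarith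
  have him2 : τ.im ^ 2 ≤ 1 / 4 := by
    have := abs_le.mp him
    nlinarith
  set x := τ.re with hx
  have hn : Complex.normSq τ = x ^ 2 + τ.im ^ 2 := by rw [Complex.normSq_apply]; ring
  have hn1 : x ^ 2 ≤ Complex.normSq τ := by rw [hn]; nlinarith [sq_nonneg τ.im]
  have hn2 : Complex.normSq τ ≤ x * (x + 1) := by rw [hn]; nlinarith
  have hn0 : 0 < Complex.normSq τ := lt_of_lt_of_le (by positivity) hn1
  set ρ : ℝ := (τ⁻¹ + I).re with hρ
  have hρe : ρ = x / Complex.normSq τ := by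
    rw [hρ, Complex.add_re, Complex.inv_re, Complex.I_re, add_zero]
  have hρ0 : 0 < ρ := by rw [hρe]; positivity
  have hρ1 : 1 / ρ ≤ x + 1 := by
    rw [hρe, one_div_div, div_le_iff₀ hx0]
    linarith [mul_comm x (x + 1)]
  have hρ2 : ρ ≤ 1 / 2 := by
    rw [hρe, div_le_iff₀ hn0]
    nlinarith
  have hs : ∀ z ∈ Metric.sphere (τ⁻¹ + I) (ρ / 10), ‖F z‖ ≤ C * Real.exp (b * (x + 1)) := by
    intro z hz
    have hz1 : |z.re - ρ| ≤ ρ / 10 := by
      have := Complex.abs_re_le_norm (z - (τ⁻¹ + I))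
      rw [Complex.sub_re] at this
      rw [mem_sphere_iff_norm] at hz
      rw [← hz]
      exact this
    have hz2 := abs_le.mp hz1
    refine (hC z (by linarith) (by linarith)).trans ?_
    apply mul_le_mul_of_nonneg_left _ hC0
    apply Real.exp_le_exp.mpr
    rw [div_le_iff₀ (by linarith)]
    have h1 : 1 ≤ (x + 1) * ρ := by
      rw [div_le_iff₀ hρ0] at hρ1
      exact hρ1
    have h2 : b * (x + 1) * z.re ≥ b * (x + 1) * (9 / 10 * ρ) := by
      apply mul_le_mul_of_nonneg_left (by linarith) (by positivity)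
    have h3 : b * (x + 1) * (9 / 10 * ρ) = π * (1 / 3 + κ + 1 / 12) * ((x + 1) * ρ) := by
      rw [hb]; ring
    have h4 : π * (1 / 3 + κ) + π / 12 = π * (1 / 3 + κ + 1 / 12) * 1 := by ring
    rw [h4]
    refine le_trans ?_ h2
    rw [h3]
    apply mul_le_mul_of_nonneg_left h1 (by positivity)
  have hd : DiffContOnCl ℂ F (Metric.ball (τ⁻¹ + I) (ρ / 10)) := by
    apply DifferentiableOn.diffContOnCl_ball (U := {τ : ℂ | 0 < τ.re}) H.diff
    intro z hz
    have hz1 := Complex.abs_re_le_norm (z - (τ⁻¹ + I))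
    rw [Complex.sub_re] at hz1
    rw [mem_closedBall_iff_norm] at hz
    have hz2 := abs_le.mp (hz1.trans hz)
    show 0 < z.re
    linarith [hz2.1]
  have h5 := Complex.norm_deriv_le_of_forall_mem_sphere_norm_le (by positivity : 0 < ρ / 10) hd hs
  have h6 : ‖deriv F (τ⁻¹ + I)‖ ≤ 10 * C * (x + 1) * Real.exp (b * (x + 1)) := by
    refine h5.trans ?_
    rw [show C * Real.exp (b * (x + 1)) / (ρ / 10) = 10 * C * (1 / ρ) * Real.exp (b * (x + 1)) by
      field_simp]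
    apply mul_le_mul_of_nonneg_right _ (Real.exp_pos _).le
    apply mul_le_mul_of_nonneg_left hρ1 (by positivity)
  have h7 : x ^ 2 * (Real.exp (-(π * x / 3)) / 2) ≤ ‖E4 (τ⁻¹ + I)‖ := by
    rw [norm_E4_add_I, E4_inv hx0, norm_mul, norm_pow]
    have e1 : x ^ 2 ≤ ‖τ‖ ^ 2 := by rw [← Complex.normSq_eq_norm_sq]; exact hn1
    have e2 := (hA τ ((le_max_left _ _).trans hτ)).1
    exact mul_le_mul e1 e2 (by positivity) (by positivity)
  have hE : 0 < Real.exp (-(π * x / 3)) := Real.exp_pos _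
  unfold vq
  rw [norm_div, div_le_iff₀ (lt_of_lt_of_le (by positivity) h7)]
  refine h6.trans ?_
  refine le_trans ?_ (mul_le_mul_of_nonneg_left h7 (by positivity))
  have h8 : Real.exp b * Real.exp ((b + π / 3) * x) * Real.exp (-(π * x / 3)) =
      Real.exp (b * (x + 1)) := by
    rw [← Real.exp_add, ← Real.exp_add]
    congr 1
    ring
  calc 10 * C * (x + 1) * Real.exp (b * (x + 1)) ≤ 10 * C * (2 * x ^ 2) * Real.exp (b * (x + 1)) := by
        apply mul_le_mul_of_nonneg_right _ (Real.exp_pos _).le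
        apply mul_le_mul_of_nonneg_left (by nlinarith) (by positivity)
    _ = 40 * C * Real.exp b * Real.exp ((b + π / 3) * x) * (x ^ 2 * (Real.exp (-(π * x / 3)) / 2)) := by
        rw [← h8]; ring

/-- `F' ≠ 0` somewhere, so `κ = 0` -/
theorem Hyp.kappa (H : Hyp F κ) (V : VanishExp) : κ = 0 := by
  by_contra hκ
  have hκ1 : (1 : ℝ) ≤ κ := by exact_mod_cast Nat.one_le_iff_ne_zero.mpr hκ
  obtain ⟨X₁, C₁, hC₁, h1⟩ := H.vq_inf
  obtain ⟨X₂, C₂, hC₂, h2⟩ := H.vq_zero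
  have hv : ∀ τ : ℂ, 0 < τ.re → vq F τ = 0 := by
    apply V (vq F) H.vq_diff (fun τ h => by rw [H.vq_per h]) (fun τ h => by rw [H.vq_dual h])
    refine ⟨max X₁ X₂, max C₁ C₂, π * κ, π * (1 / 3 + κ + 1 / 12) * (10 / 9) + π / 3, ?_, ?_, ?_⟩
    · have := Real.pi_pos
      nlinarith
    · intro τ hτ
      refine (h1 τ ((le_max_left _ _).trans hτ)).trans ?_
      apply mul_le_mul_of_nonneg_right (le_max_left _ _) (Real.exp_pos _).le
    · intro τ hτ him
      refine (h2 τ ((le_max_right _ _).trans hτ) him).trans ?_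
      apply mul_le_mul_of_nonneg_right (le_max_right _ _) (Real.exp_pos _).le
  have hd : ∀ τ : ℂ, 0 < τ.re → deriv F τ = 0 := by
    intro τ h
    have := hv τ h
    unfold vq at this
    rcases div_eq_zero_iff.mp this with h' | h'
    · exact h'
    · exact absurd h' (E4_ne_zero h)
  -- `F` is constant on the half plane
  have hconst : ∀ τ : ℂ, 0 < τ.re → F τ = F 1 := by
    intro τ h
    have hc : Convex ℝ {τ : ℂ | 0 < τ.re} := convex_halfSpace_re_gt 0
    exact isOpen_hp.is_const_of_deriv_eq_zero hc.isPreconnected H.diff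
      (fun z hz => by simpa using hd z hz) h (by simp : (1 : ℂ) ∈ {τ : ℂ | 0 < τ.re})
  have hF1 : F 1 = 1 / 2 := by
    have := H.dual 1 (by simp)
    rw [inv_one] at this
    linear_combination this / 2
  obtain ⟨C, hC⟩ := H.inf
  have h3 : ∀ n : ℕ, 1 / 2 ≤ C * Real.exp (-(n : ℝ)) := by
    intro n
    have h4 := hC ((n + 1 : ℕ) : ℂ) (by simp)
    rw [hconst _ (by simp; positivity), hF1] at h4
    have h5 : ‖(1 / 2 : ℂ)‖ = 1 / 2 := by norm_num
    rw [h5] at h4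
    refine h4.trans ?_
    have hC0 : 0 ≤ C := by
      by_contra h6
      push Not at h6
      have := Real.exp_pos (-(π * (1 / 3 + κ) * (((n + 1 : ℕ) : ℂ)).re))
      nlinarith
    apply mul_le_mul_of_nonneg_left _ hC0
    apply Real.exp_le_exp.mpr
    have h6 : (((n + 1 : ℕ) : ℂ)).re = (n : ℝ) + 1 := by simp
    rw [h6]
    have := Real.pi_gt_three
    have hn : (0 : ℝ) ≤ n := Nat.cast_nonneg n
    nlinarith [mul_nonneg (by linarith : (0:ℝ) ≤ π - 3) hn, mul_nonneg (by positivity : (0:ℝ) ≤ κ) hn]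
  have h4 : Tendsto (fun n : ℕ => C * Real.exp (-(n : ℝ))) atTop (𝓝 (C * 0)) :=
    (Real.tendsto_exp_neg_atTop_nhds_zero.comp tendsto_natCast_atTop_atTop).const_mul C
  rw [mul_zero] at h4
  have := ge_of_tendsto' h4 h3
  linarith

/-- the limit of the quotient at infinity, `κ = 0` -/
theorem Hyp.vq_lim (H : Hyp F 0) : ∃ b₀ : ℂ, ∃ X C : ℝ, 0 ≤ C ∧ ∀ τ : ℂ, X ≤ τ.re →
    ‖vq F τ - b₀‖ ≤ C * Real.exp (-(π * τ.re)) := by
  classical
  obtain ⟨X₁, C₁, hC₁, h1⟩ := H.vq_inf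
  set f : ℂ → ℂ := fun z => if 0 < z.im then vq F (-I * z) else 0 with hf
  have hre : ∀ z : ℂ, (-I * z).re = z.im := fun z => by simp
  have hper : Function.Periodic f ((2 : ℝ) : ℂ) := by
    intro z
    simp only [hf]
    have him : (z + ((2 : ℝ) : ℂ)).im = z.im := by simp
    rw [him]
    split_ifs with h
    · have h2 := H.vq_per (τ := -I * (z + ((2 : ℝ) : ℂ))) (by rw [hre, him]; exact h)
      rw [← h2]
      congr 1
      push_cast
      ring
    · rfl
  have hmem : ∀ᶠ z : ℂ in comap Complex.im atTop, max X₁ 1 ≤ z.im :=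
    (eventually_ge_atTop (max X₁ 1)).comap Complex.im
  have hdiff : ∀ᶠ z : ℂ in comap Complex.im atTop, DifferentiableAt ℂ f z := by
    filter_upwards [hmem] with z hz
    have hz0 : 0 < z.im := lt_of_lt_of_le one_pos ((le_max_right X₁ 1).trans hz)
    have hev : f =ᶠ[𝓝 z] fun w => vq F (-I * w) := by
      filter_upwards [(isOpen_lt continuous_const Complex.continuous_im).mem_nhds hz0] with w hw
      simp only [hf]
      rw [if_pos hw]
    refine DifferentiableAt.congr_of_eventuallyEq ?_ hev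
    refine DifferentiableAt.comp z (g := vq F) ?_ (by fun_prop)
    exact H.vq_diff.differentiableAt (isOpen_hp.mem_nhds (by
      show 0 < (-I * z).re
      rw [hre]; exact hz0))
  have hbd : (comap Complex.im atTop).BoundedAtFilter f := by
    refine Asymptotics.IsBigO.of_bound C₁ ?_
    filter_upwards [hmem] with z hz
    have hz0 : 0 < z.im := lt_of_lt_of_le one_pos ((le_max_right X₁ 1).trans hz)
    simp only [hf]
    rw [if_pos hz0]
    refine (h1 (-I * z) (by rw [hre]; exact (le_max_left X₁ 1).trans hz)).trans ?_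
    simp
  have h2 := Function.Periodic.exp_decay_sub_of_bounded_at_inf (by norm_num : (0 : ℝ) < 2) hper hdiff hbd
  obtain ⟨C, hC⟩ := h2.bound
  obtain ⟨t, ht, hts⟩ := (Filter.mem_comap.mp hC)
  obtain ⟨X, hX⟩ := Filter.mem_atTop_sets.mp ht
  refine ⟨Function.Periodic.cuspFunction 2 f 0, max X 1, max C 0, le_max_right _ _, fun τ hτ => ?_⟩
  have hτ0 : 0 < τ.re := lt_of_lt_of_le one_pos ((le_max_right X 1).trans hτ)
  have him : (I * τ).im = τ.re := by simp
  have h3 : I * τ ∈ Complex.im ⁻¹' t := by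
    show (I * τ).im ∈ t
    rw [him]
    exact hX _ ((le_max_left X 1).trans hτ)
  have h4 := hts h3
  have h5 : ‖f (I * τ) - Function.Periodic.cuspFunction 2 f 0‖ ≤
      C * ‖Real.exp (-2 * π * (I * τ).im / 2)‖ := h4
  have h6 : f (I * τ) = vq F τ := by
    simp only [hf]
    rw [if_pos (by rw [him]; exact hτ0), show -I * (I * τ) = τ by
      rw [← mul_assoc, neg_mul, I_mul_I]; ring]
  rw [h6, him, Real.norm_eq_abs, abs_of_pos (Real.exp_pos _),
    show -2 * π * τ.re / 2 = -(π * τ.re) by ring] at h5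
  refine h5.trans ?_
  apply mul_le_mul_of_nonneg_right (le_max_left _ _) (Real.exp_pos _).le

/-- the quotient is constant -/
theorem Hyp.vq_const (H : Hyp F 0) (V : VanishExp) : ∃ b₀ : ℂ, ∀ τ : ℂ, 0 < τ.re →
    deriv F τ = b₀ * E4 τ := by
  obtain ⟨b₀, X₁, C₁, hC₁, h1⟩ := H.vq_lim
  obtain ⟨X₂, C₂, hC₂, h2⟩ := H.vq_zero
  have hv : ∀ τ : ℂ, 0 < τ.re → vq F τ - b₀ = 0 := by
    apply V (fun τ => vq F τ - b₀) (H.vq_diff.sub_const b₀) (fun τ h => by rw [H.vq_per h])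
      (fun τ h => by rw [H.vq_dual h])
    refine ⟨max (max X₁ X₂) 0, max C₁ (C₂ + ‖b₀‖), π, π * (1 / 3 + 1 / 12) * (10 / 9) + π / 3,
      ?_, ?_, ?_⟩
    · have := Real.pi_pos
      nlinarith
    · intro τ hτ
      refine (h1 τ ((le_max_left _ _).trans ((le_max_left _ _).trans hτ))).trans ?_
      apply mul_le_mul_of_nonneg_right (le_max_left _ _) (Real.exp_pos _).le
    · intro τ hτ him
      have e1 := h2 τ ((le_max_right _ _).trans ((le_max_left _ _).trans hτ)) him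
      have hx0 : 0 ≤ τ.re := (le_max_right _ _).trans hτ
      have e2 : (1 : ℝ) ≤ Real.exp ((π * (1 / 3 + 1 / 12) * (10 / 9) + π / 3) * τ.re) := by
        apply Real.one_le_exp
        positivity
      have e3 : ((0 : ℕ) : ℝ) = 0 := Nat.cast_zero
      rw [e3, show (1 : ℝ) / 3 + 0 + 1 / 12 = 1 / 3 + 1 / 12 by ring] at e1
      calc ‖vq F (τ⁻¹ + I) - b₀‖ ≤ ‖vq F (τ⁻¹ + I)‖ + ‖b₀‖ := norm_sub_le _ _
        _ ≤ C₂ * Real.exp ((π * (1 / 3 + 1 / 12) * (10 / 9) + π / 3) * τ.re) +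
            ‖b₀‖ * Real.exp ((π * (1 / 3 + 1 / 12) * (10 / 9) + π / 3) * τ.re) := by
          apply add_le_add e1
          exact le_mul_of_one_le_right (norm_nonneg _) e2
        _ = (C₂ + ‖b₀‖) * Real.exp ((π * (1 / 3 + 1 / 12) * (10 / 9) + π / 3) * τ.re) := by ring
        _ ≤ max C₁ (C₂ + ‖b₀‖) * Real.exp ((π * (1 / 3 + 1 / 12) * (10 / 9) + π / 3) * τ.re) :=
          mul_le_mul_of_nonneg_right (le_max_right _ _) (Real.exp_pos _).le
  refine ⟨b₀, fun τ h => ?_⟩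
  have := hv τ h
  unfold vq at this
  rw [sub_eq_zero, div_eq_iff (E4_ne_zero h)] at this
  exact this

/-! ### the integral formula -/

theorem E4_continuousOn : ContinuousOn (fun t : ℝ => E4 (t : ℂ)) (Ioi 0) := by
  intro t ht
  have h1 : 0 < ((t : ℂ)).re := by simpa using ht
  exact ((E4_differentiableAt h1).continuousAt.comp
    Complex.continuous_ofReal.continuousAt).continuousWithinAt

theorem E4_small : ∃ δ : ℝ, 0 < δ ∧ ∀ t : ℝ, 0 < t → t ≤ δ → ‖E4 (t : ℂ)‖ ≤ 4 := by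
  obtain ⟨A, hA1, hA⟩ := E4_bounds
  refine ⟨A⁻¹, by positivity, fun t ht htA => ?_⟩
  have h1 : 0 < ((t : ℂ)).re := by simpa using ht
  have h2 : A ≤ t⁻¹ := by
    rw [le_inv_comm₀ (by linarith) ht]
    exact htA
  have h3 := (hA ((t⁻¹ : ℝ) : ℂ) (by simpa using h2)).2
  have h4 := E4_inv (τ := ((t⁻¹ : ℝ) : ℂ)) (by simpa using ht)
  rw [show (((t⁻¹ : ℝ) : ℂ))⁻¹ = (t : ℂ) by push_cast; rw [inv_inv]] at h4
  rw [h4, norm_mul, norm_pow, Complex.norm_real, Real.norm_eq_abs, abs_of_pos (by positivity)]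
  simp only [Complex.ofReal_re] at h3
  set y := t⁻¹ with hy
  have hy0 : 0 < y := by positivity
  have h5 : Real.exp (-(π * y / 3)) * y ^ 2 ≤ 2 := by
    have e1 := Real.quadratic_le_exp_of_nonneg (x := π * y / 3) (by positivity)
    have e2 : Real.exp (-(π * y / 3)) * Real.exp (π * y / 3) = 1 := by
      rw [← Real.exp_add]; simp
    have e3 := Real.exp_pos (-(π * y / 3))
    have e4 : y ^ 2 ≤ 2 * Real.exp (π * y / 3) := by
      have h9 : (1 : ℝ) ≤ (π / 3) ^ 2 := by nlinarith [Real.pi_gt_three]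
      have h10 : 1 * y ^ 2 ≤ (π / 3) ^ 2 * y ^ 2 := mul_le_mul_of_nonneg_right h9 (sq_nonneg y)
      have h11 : (π * y / 3) ^ 2 = (π / 3) ^ 2 * y ^ 2 := by ring
      have h12 : 0 ≤ π * y / 3 := by positivity
      rw [h11] at e1
      linarith
    nlinarith
  nlinarith

theorem E4_integrableOn : IntegrableOn (fun t : ℝ => E4 (t : ℂ)) (Ioi 0) := by
  obtain ⟨δ, hδ, h1⟩ := E4_small
  obtain ⟨A, hA1, hA⟩ := E4_bounds
  rw [← Ioc_union_Ioi_eq_Ioi hδ.le, integrableOn_union]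
  constructor
  · refine IntegrableOn.of_bound (C := 4) measure_Ioc_lt_top ?_ ?_
    · exact (E4_continuousOn.mono fun t ht => ht.1).aestronglyMeasurable measurableSet_Ioc
    · refine (ae_restrict_iff' measurableSet_Ioc).mpr (ae_of_all _ fun t ht => h1 t ht.1 ht.2)
  · have hc : ContinuousOn (fun t : ℝ => E4 (t : ℂ)) (Ici δ) :=
      E4_continuousOn.mono fun t ht => lt_of_lt_of_le hδ ht
    have hm : AEStronglyMeasurable (fun t : ℝ => E4 (t : ℂ)) (volume.restrict (Ioi δ)) :=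
      (hc.mono Ioi_subset_Ici_self).aestronglyMeasurable measurableSet_Ioi
    refine (integrable_norm_iff hm).mp ?_
    refine integrable_of_isBigO_exp_neg (b := π / 3) (by positivity) hc.norm ?_
    refine Asymptotics.IsBigO.of_bound 2 ?_
    filter_upwards [eventually_ge_atTop A] with t ht
    have := (hA (t : ℂ) (by simpa using ht)).2
    rw [norm_norm, Real.norm_eq_abs, abs_of_pos (Real.exp_pos _)]
    simp only [Complex.ofReal_re] at this
    rw [show -(π / 3) * t = -(π * t / 3) by ring]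
    exact this

theorem Hyp.tendsto_atTop (H : Hyp F κ) : Tendsto (fun t : ℝ => F (t : ℂ)) atTop (𝓝 0) := by
  obtain ⟨C, hC⟩ := H.inf
  have h1 : Tendsto (fun t : ℝ => C * Real.exp (-(π * (1 / 3 + κ) * t))) atTop (𝓝 0) := by
    have : Tendsto (fun t : ℝ => π * (1 / 3 + κ) * t) atTop atTop :=
      tendsto_id.const_mul_atTop (by positivity)
    have := (Real.tendsto_exp_neg_atTop_nhds_zero.comp this).const_mul C
    simpa using this
  refine squeeze_zero_norm' ?_ h1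
  filter_upwards [eventually_ge_atTop 1] with t ht
  simpa using hC (t : ℂ) (by simpa using ht)

/-- **module M4** -/
theorem Hyp.formula (H : Hyp F κ) (V : VanishExp) : κ = 0 ∧ ∀ x : ℝ, 0 < x →
    F x = (∫ t in Ioi x, E4 (t : ℂ)) / (∫ t in Ioi (0 : ℝ), E4 (t : ℂ)) := by
  have hκ := H.kappa V
  refine ⟨hκ, fun x hx => ?_⟩
  subst hκ
  obtain ⟨b₀, hb⟩ := H.vq_const V
  have hint := E4_integrableOn
  have hder : ∀ t : ℝ, 0 < t → HasDerivAt (fun t : ℝ => F (t : ℂ)) (b₀ * E4 (t : ℂ)) t := by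
    intro t ht
    have h1 : 0 < ((t : ℂ)).re := by simpa using ht
    rw [← hb _ h1]
    exact (H.diffAt h1).hasDerivAt.comp_ofReal
  have hlim := H.tendsto_atTop
  -- from `x` to infinity
  have hx1 : ∫ t in Ioi x, b₀ * E4 (t : ℂ) = 0 - F x := by
    refine integral_Ioi_of_hasDerivAt_of_tendsto (f := fun t : ℝ => F (t : ℂ)) ?_
      (fun t ht => hder t (hx.trans ht)) ?_ hlim
    · exact (hder x hx).continuousAt.continuousWithinAt
    · exact (hint.mono_set (Ioi_subset_Ioi hx.le)).const_mul b₀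
  -- from `0` to infinity
  set g : ℝ → ℂ := fun t => if 0 < t then F (t : ℂ) else 1 with hg
  have hgt : Tendsto (fun t : ℝ => F (t : ℂ)) (𝓝[>] 0) (𝓝 1) := by
    have h1 : Tendsto (fun t : ℝ => 1 - F ((t⁻¹ : ℝ) : ℂ)) (𝓝[>] 0) (𝓝 (1 - 0)) :=
      (hlim.comp tendsto_inv_nhdsGT_zero).const_sub 1
    rw [sub_zero] at h1
    refine h1.congr' ?_
    filter_upwards [self_mem_nhdsWithin] with t ht
    have h2 : 0 < (((t⁻¹ : ℝ) : ℂ)).re := by
      rw [Complex.ofReal_re]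
      exact inv_pos.mpr ht
    have h3 := H.dual _ h2
    rw [show (((t⁻¹ : ℝ) : ℂ))⁻¹ = (t : ℂ) by push_cast; rw [inv_inv]] at h3
    rw [h3]
  have h01 : ∫ t in Ioi (0 : ℝ), b₀ * E4 (t : ℂ) = 0 - g 0 := by
    refine integral_Ioi_of_hasDerivAt_of_tendsto (f := g) ?_ (fun t ht => ?_) (hint.const_mul b₀) ?_
    · have hg0 : g 0 = 1 := by simp [hg]
      rw [← continuousWithinAt_Ioi_iff_Ici]
      unfold ContinuousWithinAt
      rw [hg0]
      refine hgt.congr' ?_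
      filter_upwards [self_mem_nhdsWithin] with t ht
      simp only [hg]
      rw [if_pos (show 0 < t from ht)]
    · refine (hder t ht).congr_of_eventuallyEq ?_
      filter_upwards [Ioi_mem_nhds ht] with s hs
      simp only [hg]
      rw [if_pos (show 0 < s from hs)]
    · refine hlim.congr' ?_
      filter_upwards [eventually_gt_atTop 0] with t ht
      simp only [hg]
      rw [if_pos ht]
  have hg0 : g 0 = 1 := by simp [hg]
  rw [hg0, integral_const_mul] at h01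
  rw [integral_const_mul] at hx1
  have hne : (∫ t in Ioi (0 : ℝ), E4 (t : ℂ)) ≠ 0 := by
    intro h0
    rw [h0] at h01
    norm_num at h01
  rw [eq_div_iff hne]
  have hb0 : b₀ ≠ 0 := by
    intro h0
    rw [h0] at h01
    norm_num at h01
  apply mul_left_cancel₀ hb0
  linear_combination (F x) * h01 - hx1

theorem vanishExp : VanishExp := by
  intro u hd hT hS ⟨X, C, μ, a, ha, h1, h2⟩
  exact RectMod.vanish_exp hd hT (fun τ h => by rw [one_div]; exact hS τ h) C μ a X ha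
    (fun τ hX _ _ => by rw [neg_mul]; exact h1 τ hX)
    (fun τ hX _ him => by rw [one_div]; exact h2 τ hX him)

/-- **module M4**: the exponent is the smallest one and the function is Cardy's function -/
theorem Hyp.main (H : Hyp F κ) : κ = 0 ∧ ∀ x : ℝ, 0 < x →
    F x = (∫ t in Ioi x, E4 (t : ℂ)) / (∫ t in Ioi (0 : ℝ), E4 (t : ℂ)) :=
  H.formula vanishExp

end RectM4
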